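import Pool.Agent.helper86.BK.Defs

/-!
# Project bk: (MP_bb5cc8_nt): structure theorems for the question

T1: for `0 ≤ c < 1` the statements `PNear c`, `ANear c`, `FW c`, `WA c`, `Rob c` are equivalent, and
`Q1` is equivalent to them for `c = 0`. T2: `FW c` implies that Kakeya sets in `ℝ ^ n` have lower
Minkowski dimension at least `n - c (n - 1)`.

A module XX proves `theorem XX (h : YY_stmt) ... : XX_stmt` in `Pool/Agent/<seat>/BK/XX.lean`,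
namespace `Pool.Agent.BK`.
-/

set_option autoImplicit false

namespace Pool.Agent.BK

/-- COV. Covering by shifts (greedy). Claim by induction on `T`: for `Q ⊆ [1, M]` nonempty there is
`F ⊆ (-M, M)` with at most `T` elements such that at most `M (1 - |Q| / (2 M)) ^ T` of the
`m ∈ [1, M]` are not in `Q + F`. Step: if `X` is the set of uncovered `m` then the number of pairs
`(m, q)`, `m ∈ X`, `q ∈ Q`, is `|X| |Q|` and `m - q` takes fewer than `2 M` values, so some shift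
`t` covers at least `|X| |Q| / (2 M)` of the `m ∈ X`. For `T ≥ (2 M / |Q|) log M + 1/2 ..` the
number is `< 1`, by `(1 - x) ^ T ≤ exp (- x T)`; take `T = ⌊(2 M / |Q|) * (log M + 1)⌋ + 1`. -/
def COV_stmt : Prop :=
  ∀ (M : ℕ) (Q : Finset ℕ), 1 ≤ M → Q.Nonempty → (∀ q ∈ Q, 1 ≤ q ∧ q ≤ M) →
    ∃ F : Finset ℤ, (F.card : ℝ) ≤ 2 * M / Q.card * (Real.log M + 1) + 1 ∧
      ∀ m : ℕ, 1 ≤ m → m ≤ M → ∃ q ∈ Q, ∃ t ∈ F, (m : ℤ) = q + t

/-- FLD. Folding: a finite set `B` which contains long progressions, with total length at least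
`2 N`, for all differences `q ∈ Q` covers residue classes: `cov Q a N ≤ |B|` for some `a`.
Proof (`N ≥ 1`): let `b + k q`, `k < K`, `(K - 1) q ≥ 2 N`, be in `B`. Let `j = ⌈b / N⌉`, so that
`b ≤ j N < b + N`, and `a q = b - j N`. If `1 ≤ n ≤ N` and `q ∣ n - a q` then `n + j N = b + k q`
with `0 ≤ k q ≤ 2 N`, hence `k ≤ K - 1` and `n + j N ∈ B`. The map
`x ↦ (x - 1) mod N + 1` (`Int.emod`) sends `n + j N` to `n`, so the covered set is contained in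
the image of `B`. -/
def FLD_stmt : Prop :=
  ∀ (N : ℕ) (Q : Set ℕ) (B : Finset ℤ), 1 ≤ N → (∀ q ∈ Q, 1 ≤ q) →
    (∀ q ∈ Q, ∃ (K : ℕ) (b : ℤ), 2 * N + q ≤ K * q ∧ ∀ k : ℕ, k < K → b + k * q ∈ B) →
    ∃ a : ℕ → ℤ, cov Q a N ≤ B.card

/-- AF. All moduli near `1` imply `FW`. Given `ε`: use `ANear c` with `ε / 4` and
`α₀ = max (1 / 2) (1 / (1 + ε / 8))`; let `β = 1 / α - 1`, `0 < β < ε / 8`, and `δ = 2 β`. Given
`M` large and `B` put `M' = M / 2` (floor) and `N = ⌊M' ^ (1 / α)⌋`. Then `N ^ α ≤ M'` and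
`N ^ α > M' - 1` (because `x ^ α ≤ (x - 1) ^ α + 1` for `x ≥ 1`), so `dyA α N ⊆ [M', 2 M')`, which is
contained in `[1, M]`. For these `q` apply FLD with `K = ⌈M ^ δ⌉`:
`(K - 1) q ≥ (M ^ δ - 1) M' ≥ M' ^ (1 + 2 β) - M' ≥ 2 M' ^ (1 + β) ≥ 2 N`. So
`N ^ (1 - c - ε / 4) ≤ |B|`, and `N ≥ M' - 1 ≥ M / 4`. If `1 - c - ε / 4 ≥ 0` compare powers
(`M ≥ M₀(c, ε)`); otherwise `M ^ (1 - c - ε) ≤ 1 ≤ |B|` (`B` is nonempty). -/
def AF_stmt : Prop := ∀ c : ℝ, ANear c → FW c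

/-- SHR. Shears: `FW` implies `WA`. Given `ε` use `FW c` with `ε / 4` and the same `δ`. Given `M`,
`B`, `Q` let `F` be as in COV, `K = ⌈M ^ δ⌉` and `B' = {x + k t : x ∈ B, t ∈ F, k < K}`. For
`m = q + t` the progression `b + k q` in `B` gives `b + k m = (b + k q) + k t ∈ B'`. So
`M ^ (1 - c - ε / 4) ≤ |B'| ≤ |F| K |B| ≤ (2 M ^ δ (log M + 1) + 1) (M ^ δ + 1) |B|`, and
`2 δ < ε / 2`. -/
def SHR_stmt : Prop := ∀ c : ℝ, FW c → WA c

/-- WIN. Windows: `WA c` implies `Rob c`. Given `α`, `ε` let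
`ε' = min (ε / 4) (min ((1 / α - 1) / 4) (1 / 4))` and let `δ₁`, `M₀` be as in `WA c` for `ε'`;
`δ = α δ₁ / 2`. Given `N` large, `Q`, `a` put `M = ⌈2 N ^ α⌉`, `K = ⌈M ^ δ₁⌉`, `W = M (K + 1)`,
`J = N / W` (floor). For `i < J` let `B_i` be the set of the covered `n` in `(i W, (i + 1) W]`. For
`q ∈ Q` the least `n₀ > i W` in the class of `a q` satisfies `n₀ ≤ i W + q`, and `n₀ + k q`, `k < K`,
are in `B_i`. Moreover `M ^ (1 - δ₁) ≤ (3 N ^ α) ^ (1 - δ₁) ≤ 3 N ^ (α - α δ₁) ≤ N ^ (α - δ) ≤ |Q|`.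
So `|B_i| ≥ M ^ (1 - c - ε')` and
`cov ≥ J M ^ (1 - c - ε') ≥ N M ^ (1 - c - ε') / (2 W) ≥ N M ^ (- c - ε' - δ₁) / 6`
`≥ N ^ (1 - c α - ε)` for large `N` (`M ≤ 3 N ^ α`, `W ≤ 3 M ^ (1 + δ₁)`, `2 W ≤ N`). -/
def WIN_stmt : Prop := ∀ c : ℝ, 0 ≤ c → WA c → Rob c

/-- PRM. Passing to primes. The number of primes in `[x, 2 x)` is at least `x ^ (1 - δ)` for large
`x`: `Pool.Agent.helper86.dyadicPrimes_ge` in `Pool/Agent/helper86/PrimesDyadic.lean` (import it).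
(i) `Rob c → PNear c` (`0 ≤ c`, take `α = (max α₀ 0 + 1) / 2`, `Q` the set of all primes);
(ii) `Rob 0 → Q1`; (iii) `Q1 → PNear 0`; (iv) `PNear c → ANear c` (the covered set grows);
(v) `WA c → FW c` (`Q = [1, M]`). -/
def PRM_stmt : Prop :=
  (∀ c : ℝ, 0 ≤ c → Rob c → PNear c) ∧ (Rob 0 → Q1) ∧ (Q1 → PNear 0) ∧
    (∀ c : ℝ, PNear c → ANear c) ∧ (∀ c : ℝ, WA c → FW c)

/-! ### Kakeya sets -/

/-- SLI. Slices of a Kakeya set. Let `s = √(j + 1)`, `h = 1 / (4 s)`, and let `R` be a bound for the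
coordinates of the points of `K`. Coordinate `0` of `ℝ ^ (j + 1)` is the time. Let
`q ∈ {0, …, D - 1} ^ j` and let `v = (1, q / D) / |(1, q / D)|`; a unit segment `x + τ v` in `K` has,
at time `u = x_0 + τ / |(1, q / D)|`, the position `w + u q / D`, where `w = (x_i - x_0 q_i / D)_i`; all
times `u ∈ [x_0, x_0 + 4 h]` occur.
For an integer `l` with `0 ≤ l < J = ⌊h / (4 ρ)⌋` consider the times
`u = 2 ρ l + i h + k D ρ`, `i ∈ ℤ`, `|i| ≤ R / h + 5`, `0 ≤ k < L`; note `2 ρ l ≤ h / 2` and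
`k D ρ ≤ h / 2`. For every `q` some `i` (namely `i = ⌈x_0 / h⌉`) has
`[i h, (i + 1) h] ⊆ [x_0, x_0 + 4 h]`, so all its times for `k < L` are times of the segment, and
`⌊(1 / ρ) (position at time u)⌋ = ⌊(1 / ρ) (w + (2 ρ l + i h) q / D)⌋ + k q` (floor of each coordinate).
Let `B_l` be the set of the floors of `(1 / ρ) y` for all points `(u, y)` of `K` with `u` one of these
times. It contains a progression with difference `q` for all `q`. Each point `(u, y)` is in a ball of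
the cover; a ball with centre `(u', y')`, `|u' - u| ≤ ρ`, gives at most `3 ^ j` floors for each
time `u`, and for given `i`, `k` there are at most two `l` with `|u' - u| ≤ ρ`
(strictly: `2 ρ l` lies in a closed interval of length `2 ρ`), and for given `k` only at most `4` values
of `i` are possible for some `l` (as `i h ∈ [u' - ρ - h, u' + ρ]` and `ρ ≤ h / 4`).
So `∑_l |B_l| ≤ 3 ^ j * 8 L |T|`, and for some `l` `|B_l| ≤ 3 ^ j * 8 L |T| / J ≤ C L ρ |T|`, since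
`J ≥ h / (8 ρ)`. (Any larger constant is fine. A simpler count is welcome.) -/
def SLI_stmt : Prop :=
  ∀ (j : ℕ) (K : Set (EuclideanSpace ℝ (Fin (j + 1)))), IsKak K →
    ∃ C : ℝ, 0 < C ∧ ∀ (ρ : ℝ) (D L : ℕ) (T : Finset (EuclideanSpace ℝ (Fin (j + 1)))),
      0 < ρ → 1 ≤ D → C * ρ ≤ 1 → C * (L * D * ρ) ≤ 1 →
      K ⊆ (⋃ x ∈ T, Metric.closedBall x ρ) →
      ∃ B : Finset (Fin j → ℤ), (B.card : ℝ) ≤ C * L * ρ * T.card ∧
        ∀ q : Fin j → ℕ, (∀ i, q i < D) →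
          ∃ b : Fin j → ℤ, ∀ k : ℕ, k < L → (fun i => b i + k * q i) ∈ B

/-- DIG. Digits: the map `ψ x = ∑ i, x i * D ^ i` is additive, does not increase cardinalities, and
takes all values in `[0, D ^ j)` on `{0, …, D - 1} ^ j` (digits in base `D`). -/
def DIG_stmt : Prop :=
  ∀ (j D L : ℕ) (B : Finset (Fin j → ℤ)), 1 ≤ D →
    (∀ q : Fin j → ℕ, (∀ i, q i < D) →
      ∃ b : Fin j → ℤ, ∀ k : ℕ, k < L → (fun i => b i + k * q i) ∈ B) →
    ∃ B' : Finset ℤ, B'.card ≤ B.card ∧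
      ∀ m : ℕ, m < D ^ j → ∃ b : ℤ, ∀ k : ℕ, k < L → b + k * m ∈ B'

/-- KAK. Kakeya sets, final step. Let `n = j + 1`, `j ≥ 1`, `0 ≤ c ≤ 1`, `ε > 0`. Choose
`ε' > 0` small (in terms of `ε`, `j`), let `δ < ε'` be as in `FW c` for `ε'`, and `η = 2 j δ`. For
small `ρ` let `D = ⌊ρ ^ (-(1 - η))⌋`, `L = ⌊1 / (C D ρ)⌋` (`C` from SLI), `M = D ^ j - 1`. Then
`L ≥ c₁ ρ ^ (- η) ≥ M ^ δ + 1`, so SLI and DIG give `B'` with `HasAP B' q (M ^ δ)` for
`1 ≤ q ≤ M` and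
`M ^ (1 - c - ε') ≤ |B'| ≤ C L ρ |T| ≤ |T| / D`. So
`|T| ≥ D * M ^ (1 - c - ε') ≥ ρ ^ (-(1 - η) (1 + j (1 - c - ε')) ) / constant ≥ ρ ^ (-(1 + j (1 - c) - ε))`
for small `ρ`. (If `1 - c - ε' < 0` use `M ≤ D ^ j`.) -/
def KAK_stmt : Prop :=
  ∀ c : ℝ, 0 ≤ c → c ≤ 1 → FW c → ∀ (j : ℕ), 1 ≤ j →
    ∀ K : Set (EuclideanSpace ℝ (Fin (j + 1))), IsKak K → MinkGE K (j + 1 - c * j)

end Pool.Agent.BK
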