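import Pool.Agent.helper13.BK.COVA
import Pool.Agent.helper99.BK.DIL
import Pool.Agent.helper17.BK.SH2
import Pool.Agent.helper2.BK.WI2
import Pool.Agent.helper45.BK.PR2
import Pool.Agent.helper61.BK.FLD
import Pool.Agent.helper79.BK.AF
import Pool.Agent.helper77.BK.PRM
import Pool.Agent.helper98.BK.SLI
import Pool.Agent.helper78.BK.DIG
import Pool.Agent.helper70.BK.KAK

/-! # Project bk: (MP_bb5cc8_nt): assembly -/

set_option autoImplicit false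

namespace Pool.Agent.BK

theorem all_PA (c : ℝ) (h : PNear c) : ANear c := PRM.2.2.2.1 c h

theorem all_AF (c : ℝ) (h : ANear c) : FW c := AF FLD c h

theorem all_FW (c : ℝ) (h0 : 0 ≤ c) (h1 : c < 1) (h : FW c) : WK c := SH2 COVA DIL c h0 h1 h

theorem all_WM (c : ℝ) (h0 : 0 ≤ c) (h1 : c < 1) (h : WK c) : Max c := WI2 c h0 h1 h

theorem all_MP (c : ℝ) (h0 : 0 ≤ c) (h1 : c < 1) (h : Max c) : PNear c := PR2.1 c h0 h1 h

/-- The structure theorem, loss `c`. -/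
theorem all_tfae (c : ℝ) (h0 : 0 ≤ c) (h1 : c < 1) :
    List.TFAE [PNear c, ANear c, Max c, FW c, WK c] := by
  tfae_have 1 → 2 := all_PA c
  tfae_have 2 → 4 := all_AF c
  tfae_have 4 → 5 := all_FW c h0 h1
  tfae_have 5 → 3 := all_WM c h0 h1
  tfae_have 3 → 1 := all_MP c h0 h1
  tfae_finish

theorem all_q1 : List.TFAE [Q1, PNear 0, SumF, FW 0, WK 0] := by
  have h := all_tfae 0 le_rfl zero_lt_one
  tfae_have 1 → 2 := PRM.2.2.1
  tfae_have 2 ↔ 4 := h.out 0 3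
  tfae_have 4 ↔ 5 := h.out 3 4
  tfae_have 5 → 3 := fun hw => PR2.2.1 (all_WM 0 le_rfl zero_lt_one hw)
  tfae_have 3 → 1 := PR2.2.2.1
  tfae_finish

theorem all_kak (c : ℝ) (hc : 0 ≤ c)
    (hc1 : c ≤ 1) (h : PNear c) (j : ℕ) (hj : 1 ≤ j)
    (K : Set (EuclideanSpace ℝ (Fin (j + 1)))) (hK : IsKak K) : MinkGE K (j + 1 - c * j) :=
  KAK SLI DIG c hc hc1 (all_AF c (all_PA c h)) j hj K hK

theorem all_kakn (c : ℝ) (hc : 0 ≤ c) (hc1 : c ≤ 1) (h : PNear c) (n : ℕ) (hn : 2 ≤ n)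
    (K : Set (EuclideanSpace ℝ (Fin n))) (hK : IsKak K) : MinkGE K (n - c * (n - 1)) := by
  obtain ⟨j, rfl⟩ : ∃ j, n = j + 1 := ⟨n - 1, by omega⟩
  have := all_kak c hc hc1 h j (by omega) K hK
  simpa using this

theorem all_kak1 (h : Q1) (n : ℕ) (hn : 2 ≤ n)
    (K : Set (EuclideanSpace ℝ (Fin n))) (hK : IsKak K) : MinkGE K n := by
  have := all_kakn 0 le_rfl zero_le_one (PRM.2.2.1 h) n hn K hK
  simpa using this

end Pool.Agent.BK
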