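import Pool.Agent.helper86.BK.Spec2

/-!
# Project bk: (MP_bb5cc8_nt), part 3: between arithmetic Kakeya and Kakeya

The arithmetic Kakeya conjecture of Katz and Tao implies `Q1`, and a lower bound for one exponent
`α` gives a lower bound for the dimension of Kakeya sets.
-/

set_option autoImplicit false

namespace Pool.Agent.BK

/-- The sums-differences statement of Katz and Tao with exponent `β`: for every `ε > 0` there are
finitely many slopes (pairs `(u, v)` of integers with `u + v ≠ 0`) such that every finite set `G` of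
pairs of integers with distinct differences `x - y` has at most `C m ^ (β + ε)` elements, if `m` is
at least the number of values of `u x + v y` on `G` for each of the slopes. For `β = 1` this is the
arithmetic Kakeya conjecture of Katz and Tao. -/
def SDC (β : ℝ) : Prop :=
  ∀ ε : ℝ, 0 < ε → ∃ R : Finset (ℤ × ℤ), (∀ r ∈ R, r.1 + r.2 ≠ 0) ∧ ∃ C : ℝ,
    ∀ G : Finset (ℤ × ℤ), Set.InjOn (fun g : ℤ × ℤ => g.1 - g.2) G → ∀ m : ℕ,
      (∀ r ∈ R, (G.image fun g => r.1 * g.1 + r.2 * g.2).card ≤ m) →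
        (G.card : ℝ) ≤ C * (m : ℝ) ^ (β + ε)

/-- the lower bound `N ^ (e - o(1))` holds for the exponent `α` -/
def PAt (α e : ℝ) : Prop :=
  ∀ ε : ℝ, 0 < ε → ∃ N₀ : ℕ, ∀ N : ℕ, N₀ ≤ N → ∀ a : ℕ → ℤ,
    (N : ℝ) ^ (e - ε) ≤ cov (dyP α N) a N

/-- SDW. Sums-differences imply `WK`. Let `c = 1 - 1 / β`. Given `ε > 0` use `SDC β` with `ε / 4`:
slopes `R`, constant `C` (make it `≥ 1`). Let `P = ∏_{r ∈ R} (r.1 + r.2) ≠ 0` and
`S = ∑_{r ∈ R} |r.1| |P|` (integers), `δ = ε / 2`. For large `D` (`|D| ^ δ > 2 S`) and `d ∈ D` let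
`b_d + k d ∈ B` for `0 ≤ k ≤ 2 S`, and let
`G = {(b_d + (S + P) d, b_d + S d) : d ∈ D}`; the differences `P d` are distinct, so `|G| = |D|`. For
`r = (u, v) ∈ R` let `k_r = S + u P / (u + v) ∈ [0, 2 S]`, an integer;
`u (b_d + (S + P) d) + v (b_d + S d) = (u + v) (b_d + k_r d) ∈ (u + v) B`, so the number of values is
at most `|B|` and `|D| ≤ C |B| ^ (β + ε / 4)`. Since `1 / (β + ε / 4) ≥ 1 / β - ε / 4`,
`|B| ≥ (|D| / C) ^ (1 / (β + ε / 4)) ≥ |D| ^ (1 / β - ε)` for large `D`. -/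
def SDW_stmt : Prop := ∀ β : ℝ, 1 ≤ β → SDC β → WK (1 - 1 / β)

/-- KAS. One exponent `α`. Let `0 < α < 1`, `0 ≤ e ≤ 1`, `j ≥ 1`, `x = α / (α + (1 - α) j)`, `C` from
SLI (make it `≥ 1`), `ε' > 0` small. For small `ρ` let `D = ⌊(1 / (8 C ρ)) ^ x⌋`, `M = D ^ j`,
`N = ⌊(M / 4) ^ (1 / α)⌋`, `L = ⌈2 N ^ (1 - α)⌉ + 1 ≤ 4 N ^ (1 - α)`. Then `2 N ^ α ≤ M / 2`,
`L D ≤ 4 D ^ (1 + j (1 - α) / α) ≤ 1 / (2 C ρ)`. SLI and DIG give `B'` with
`|B'| ≤ C L ρ |T|` which contains progressions with `L` terms for all differences `m < M`, and FLD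
(for the set `dyP α N`: `2 N + q ≤ L q` for `q ≥ N ^ α`) gives `a` with `cov (dyP α N) a N ≤ |B'|`. So
`N ^ (e - ε') ≤ C L ρ |T| ≤ 4 C N ^ (1 - α) ρ |T|`,
`|T| ≥ N ^ (e - 1 + α - ε') / (4 C ρ)`. As `N` lies between constant multiples of
`ρ ^ (- x j / α)`, the exponent of `1 / ρ` is at least
`1 + (x j / α) (e - 1 + α - ε')`, and `1 + (x j / α) (e - 1 + α) = (α + e j) / (α + (1 - α) j)`. See the
module KAK (`Pool/Agent/helper70/BK/KAK.lean`) for the same argument. -/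
def KAS_stmt : Prop :=
  ∀ α e : ℝ, 0 < α → α < 1 → 0 ≤ e → e ≤ 1 → PAt α e → ∀ (j : ℕ), 1 ≤ j →
    ∀ K : Set (EuclideanSpace ℝ (Fin (j + 1))), IsKak K →
      MinkGE K ((α + e * j) / (α + (1 - α) * j))

end Pool.Agent.BK
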