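import Pool.Agent.helper45.BK.PR2
import Pool.Agent.helper86.BK.Spec3

/-! # Project bk: (MP_bb5cc8_nt): the maximal form gives every exponent -/

set_option autoImplicit false

namespace Pool.Agent.BK

open Filter

theorem AT (c : ℝ) (hc0 : 0 ≤ c) (hc1 : c < 1) (h : Max c) (α : ℝ) (ha0 : 0 < α) (ha1 : α < 1) :
    PAt α (1 - c * α) := by
  intro ε hε
  set δ : ℝ := min (ε / 4) (1 / 2) with hδ
  have hd0 : 0 < δ := by rw [hδ]; exact lt_min (by linarith) (by norm_num)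
  have hd1 : δ < 1 := lt_of_le_of_lt (min_le_right _ _) (by norm_num)
  have hd2 : δ ≤ ε / 4 := min_le_left _ _
  obtain ⟨N₀, hN⟩ := h ((1 + α) / 2) (by linarith) (by linarith) (ε / 4) (by linarith)
  have hev : ∀ᶠ N : ℕ in atTop, ∀ a : ℕ → ℤ, (N : ℝ) ^ (1 - c * α - ε) ≤ cov (dyP α N) a N := by
    filter_upwards [PR2_primes ha0 hd0 hd1, PR2_ev 2 (show (0 : ℝ) < (1 - α) / 2 by linarith),
      PR2_ev 2 (show (0 : ℝ) < ε / 2 by linarith), eventually_ge_atTop N₀,
      eventually_ge_atTop 1] with N h1 h2 h3 h4 h5 a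
    have h6 : (1 : ℝ) ≤ N := by exact_mod_cast h5
    have h6' : (0 : ℝ) < N := by linarith
    have h7 : (1 : ℝ) ≤ (N : ℝ) ^ α := Real.one_le_rpow h6 ha0.le
    set X : ℕ := ⌈(N : ℝ) ^ α⌉₊ with hX
    have hX1 : (N : ℝ) ^ α ≤ X := Nat.le_ceil _
    have hX2 : (X : ℝ) < (N : ℝ) ^ α + 1 := Nat.ceil_lt_add_one (by positivity)
    have hX3 : (1 : ℝ) ≤ X := le_trans h7 hX1
    have hX4 : 1 ≤ X := by exact_mod_cast hX3
    have hX5 : (X : ℝ) ≤ 2 * (N : ℝ) ^ α := by linarith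
    have hX6 : (X : ℝ) ≤ (N : ℝ) ^ ((1 + α) / 2) := by
      have h8 : (N : ℝ) ^ ((1 + α) / 2) = (N : ℝ) ^ ((1 - α) / 2) * (N : ℝ) ^ α := by
        rw [← Real.rpow_add h6']
        congr 1
        ring
      rw [h8]
      calc (X : ℝ) ≤ 2 * (N : ℝ) ^ α := hX5
        _ ≤ (N : ℝ) ^ ((1 - α) / 2) * (N : ℝ) ^ α := by gcongr
    have h9 := hN N h4 X hX4 hX6 (Pool.Agent.helper86.dyadicPrimes ((N : ℝ) ^ α)) ?_ a
    · rw [PR2_coe] at h9
      refine le_trans ?_ h9
      rw [le_div_iff₀ (by linarith)]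
      have h10 : (((N : ℝ) ^ α) ^ (1 - δ)) ^ (1 - c) ≤
          ((Pool.Agent.helper86.dyadicPrimes ((N : ℝ) ^ α)).card : ℝ) ^ (1 - c) :=
        Real.rpow_le_rpow (by positivity) h1 (by linarith)
      rw [← Real.rpow_mul (by positivity), ← Real.rpow_mul (by positivity)] at h10
      calc (N : ℝ) ^ (1 - c * α - ε) * X ≤ (N : ℝ) ^ (1 - c * α - ε) * (2 * (N : ℝ) ^ α) := by gcongr
        _ = 2 * ((N : ℝ) ^ (1 - c * α - ε) * (N : ℝ) ^ α) := by ring
        _ ≤ (N : ℝ) ^ (ε / 2) * ((N : ℝ) ^ (1 - c * α - ε) * (N : ℝ) ^ α) := by gcongr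
        _ = (N : ℝ) ^ (ε / 2 + ((1 - c * α - ε) + α)) := by
            rw [← Real.rpow_add h6', ← Real.rpow_add h6']
        _ ≤ (N : ℝ) ^ ((1 - ε / 4) + α * ((1 - δ) * (1 - c))) := by
            refine Real.rpow_le_rpow_of_exponent_le h6 ?_
            have e1 : α * ((1 - δ) * (1 - c)) = α - α * c - α * δ * (1 - c) := by ring
            have e3 : α * δ * (1 - c) ≤ 1 * δ * 1 := by
              apply mul_le_mul
              · exact mul_le_mul_of_nonneg_right ha1.le hd0.le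
              · linarith
              · linarith
              · linarith
            rw [e1]
            linarith
        _ = (N : ℝ) ^ (1 - ε / 4) * (N : ℝ) ^ (α * ((1 - δ) * (1 - c))) := by
            rw [Real.rpow_add h6']
        _ ≤ (N : ℝ) ^ (1 - ε / 4) *
            ((Pool.Agent.helper86.dyadicPrimes ((N : ℝ) ^ α)).card : ℝ) ^ (1 - c) := by gcongr
    · intro q hq
      rw [Pool.Agent.helper86.mem_dyadicPrimes] at hq
      obtain ⟨-, hq1, hq2⟩ := hq
      refine ⟨Nat.ceil_le.2 hq1, ?_⟩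
      have h11 : (q : ℝ) < ((2 * X : ℕ) : ℝ) := by
        push_cast
        linarith
      exact_mod_cast h11
  exact eventually_atTop.1 hev

end Pool.Agent.BK
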