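import Pool.Agent.helper86.BK.All
import Pool.Agent.helper86.BK.At
import Pool.Agent.helper20.BK.SDW
import Pool.Agent.helper38.BK.KAS

/-! # Project bk: (MP_bb5cc8_nt): assembly of part 3 -/

set_option autoImplicit false

namespace Pool.Agent.BK

theorem all_sd (β : ℝ) (hβ : 1 ≤ β) (h : SDC β) (α : ℝ) (h0 : 0 < α) (h1 : α < 1) :
    PAt α (1 - (1 - 1 / β) * α) := by
  have hb : 0 < β := by linarith
  have hc0 : 0 ≤ 1 - 1 / β := by
    rw [sub_nonneg, div_le_one hb]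
    exact hβ
  have hc1 : 1 - 1 / β < 1 := by
    have : 0 < 1 / β := by positivity
    linarith
  exact AT _ hc0 hc1 (all_WM _ hc0 hc1 (SDW β hβ h)) α h0 h1

theorem all_ak (h : SDC 1) : Q1 := by
  have hw := SDW 1 le_rfl h
  norm_num at hw
  exact (all_q1.out 4 0).1 hw

theorem all_at (α e : ℝ) (h0 : 0 < α) (h1 : α < 1) (he0 : 0 ≤ e) (he1 : e ≤ 1) (h : PAt α e)
    (n : ℕ) (hn : 2 ≤ n) (K : Set (EuclideanSpace ℝ (Fin n))) (hK : IsKak K) :
    MinkGE K ((α + e * (n - 1)) / (α + (1 - α) * (n - 1))) := by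
  obtain ⟨j, rfl⟩ : ∃ j, n = j + 1 := ⟨n - 1, by omega⟩
  have := KAS SLI DIG FLD α e h0 h1 he0 he1 h j (by omega) K hK
  simpa using this

end Pool.Agent.BK
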