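import Mathlib

/-! # Project bk: (MP_bb5cc8_nt): definitions -/

set_option autoImplicit false

namespace Pool.Agent.BK

/-- the number of `n` in `{1, …, N}` with `n ≡ a q (mod q)` for some `q` in `Q` -/
noncomputable def cov (Q : Set ℕ) (a : ℕ → ℤ) (N : ℕ) : ℕ :=
  {n : ℕ | 1 ≤ n ∧ n ≤ N ∧ ∃ q ∈ Q, (q : ℤ) ∣ (n : ℤ) - a q}.ncard

/-- the primes in `[N ^ α, 2 N ^ α)` -/
def dyP (α : ℝ) (N : ℕ) : Set ℕ :=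
  {p | p.Prime ∧ (N : ℝ) ^ α ≤ p ∧ (p : ℝ) < 2 * (N : ℝ) ^ α}

/-- all integers in `[N ^ α, 2 N ^ α)` -/
def dyA (α : ℝ) (N : ℕ) : Set ℕ := {q | (N : ℝ) ^ α ≤ q ∧ (q : ℝ) < 2 * (N : ℝ) ^ α}

/-- the question Q1 -/
def Q1 : Prop :=
  ∀ α : ℝ, 1 / 2 < α → α < 1 → ∀ ε : ℝ, 0 < ε → ∃ N₀ : ℕ, ∀ N : ℕ, N₀ ≤ N → ∀ a : ℕ → ℤ,
    (N : ℝ) ^ (1 - ε) ≤ cov (dyP α N) a N

/-- loss `c` for the primes, for exponents arbitrarily close to `1` -/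
def PNear (c : ℝ) : Prop :=
  ∀ ε : ℝ, 0 < ε → ∀ α₀ : ℝ, α₀ < 1 → ∃ α : ℝ, α₀ < α ∧ α < 1 ∧ ∃ N₀ : ℕ, ∀ N : ℕ, N₀ ≤ N →
    ∀ a : ℕ → ℤ, (N : ℝ) ^ (1 - c - ε) ≤ cov (dyP α N) a N

/-- loss `c` for all integer moduli, for exponents arbitrarily close to `1` -/
def ANear (c : ℝ) : Prop :=
  ∀ ε : ℝ, 0 < ε → ∀ α₀ : ℝ, α₀ < 1 → ∃ α : ℝ, α₀ < α ∧ α < 1 ∧ ∃ N₀ : ℕ, ∀ N : ℕ, N₀ ≤ N →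
    ∀ a : ℕ → ℤ, (N : ℝ) ^ (1 - c - ε) ≤ cov (dyA α N) a N

/-- loss `c * α` for every exponent `α` and every set of moduli of density at least `N ^ (-δ)` -/
def Rob (c : ℝ) : Prop :=
  ∀ α : ℝ, 0 < α → α < 1 → ∀ ε : ℝ, 0 < ε → ∃ δ : ℝ, 0 < δ ∧ ∃ N₀ : ℕ, ∀ N : ℕ, N₀ ≤ N →
    ∀ Q : Finset ℕ, (Q : Set ℕ) ⊆ dyA α N → (N : ℝ) ^ (α - δ) ≤ Q.card → ∀ a : ℕ → ℤ,
      (N : ℝ) ^ (1 - c * α - ε) ≤ cov Q a N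

/-- `B` contains an arithmetic progression with difference `q` and at least `x` terms -/
def HasAP (B : Finset ℤ) (q : ℕ) (x : ℝ) : Prop :=
  ∃ b : ℤ, ∀ k : ℕ, (k : ℝ) < x → b + k * q ∈ B

/-- weak arithmetic Kakeya with loss `c`, all differences -/
def FW (c : ℝ) : Prop :=
  ∀ ε : ℝ, 0 < ε → ∃ δ : ℝ, 0 < δ ∧ δ < ε ∧ ∃ M₀ : ℕ, ∀ M : ℕ, M₀ ≤ M → ∀ B : Finset ℤ,
    (∀ q : ℕ, 1 ≤ q → q ≤ M → HasAP B q ((M : ℝ) ^ δ)) → (M : ℝ) ^ (1 - c - ε) ≤ B.card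

/-- weak arithmetic Kakeya with loss `c`, many differences -/
def WA (c : ℝ) : Prop :=
  ∀ ε : ℝ, 0 < ε → ∃ δ : ℝ, 0 < δ ∧ δ < ε ∧ ∃ M₀ : ℕ, ∀ M : ℕ, M₀ ≤ M → ∀ B : Finset ℤ,
    ∀ Q : Finset ℕ, (∀ q ∈ Q, 1 ≤ q ∧ q ≤ M) → (M : ℝ) ^ (1 - δ) ≤ Q.card →
    (∀ q ∈ Q, HasAP B q ((M : ℝ) ^ δ)) → (M : ℝ) ^ (1 - c - ε) ≤ B.card

/-- A bounded set which contains a unit segment in every direction. -/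
def IsKak {n : ℕ} (K : Set (EuclideanSpace ℝ (Fin n))) : Prop :=
  Bornology.IsBounded K ∧ ∀ v : EuclideanSpace ℝ (Fin n), ‖v‖ = 1 →
    ∃ x : EuclideanSpace ℝ (Fin n), ∀ t : ℝ, 0 ≤ t → t ≤ 1 → x + t • v ∈ K

/-- The lower Minkowski dimension of `K` is at least `d`. -/
def MinkGE {n : ℕ} (K : Set (EuclideanSpace ℝ (Fin n))) (d : ℝ) : Prop :=
  ∀ ε : ℝ, 0 < ε → ∃ ρ₀ : ℝ, 0 < ρ₀ ∧ ∀ ρ : ℝ, 0 < ρ → ρ < ρ₀ →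
    ∀ T : Finset (EuclideanSpace ℝ (Fin n)), K ⊆ (⋃ x ∈ T, Metric.closedBall x ρ) →
      ρ ^ (-(d - ε)) ≤ T.card

end Pool.Agent.BK
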