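import Pool.Agent.helper86.BK.Spec

/-!
# Project bk: (MP_bb5cc8_nt), part 2: the maximal form (helper59)

`PNear c`, `ANear c`, `FW c`, `WK c`, `Max c` are equivalent for `0 ≤ c < 1`, and `Q1`, `SumF`,
`WK 0` are equivalent. (Part 1 has `PNear c → ANear c → FW c` and `Q1 → PNear 0`.)

A module XX proves `theorem XX (h : YY_stmt) ... : XX_stmt` in `Pool/Agent/<seat>/BK/XX.lean`,
namespace `Pool.Agent.BK` (name it so that it may be imported together with part 1).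
-/

set_option autoImplicit false

namespace Pool.Agent.BK

/-- weak arithmetic Kakeya with loss `c`, for an arbitrary finite set `D` of differences -/
def WK (c : ℝ) : Prop :=
  ∀ ε : ℝ, 0 < ε → ∃ δ : ℝ, 0 < δ ∧ δ < ε ∧ ∃ m₀ : ℕ, ∀ D : Finset ℤ, m₀ ≤ D.card →
    ∀ B : Finset ℤ, (∀ d ∈ D, ∃ b : ℤ, ∀ k : ℕ, (k : ℝ) < (D.card : ℝ) ^ δ → b + k * d ∈ B) →
      (D.card : ℝ) ^ (1 - c - ε) ≤ B.card

/-- the bound with loss `c` for arbitrary sets of moduli in a dyadic interval below `N ^ α` -/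
def Max (c : ℝ) : Prop :=
  ∀ α : ℝ, 0 < α → α < 1 → ∀ ε : ℝ, 0 < ε → ∃ N₀ : ℕ, ∀ N : ℕ, N₀ ≤ N → ∀ X : ℕ, 1 ≤ X →
    (X : ℝ) ≤ (N : ℝ) ^ α → ∀ Q : Finset ℕ, (∀ q ∈ Q, X ≤ q ∧ q < 2 * X) → ∀ a : ℕ → ℤ,
      (N : ℝ) ^ (1 - ε) * (Q.card : ℝ) ^ (1 - c) / X ≤ cov Q a N

/-- Residue classes of different moduli at most `N ^ α` are disjoint in `{1, …, N}` up to a factor
`N ^ ε`: the maximal form of the question. -/
def SumF : Prop :=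
  ∀ α : ℝ, 0 < α → α < 1 → ∀ ε : ℝ, 0 < ε → ∃ N₀ : ℕ, ∀ N : ℕ, N₀ ≤ N →
    ∀ Q : Finset ℕ, (∀ q ∈ Q, 1 ≤ q ∧ (q : ℝ) ≤ (N : ℝ) ^ α) → ∀ a : ℕ → ℤ,
      (N : ℝ) ^ (-ε) * ∑ q ∈ Q, (N : ℝ) / q ≤ cov Q a N

/-- COVA. Greedy covering. Claim by induction on `T`: there is `F ⊆ R` with `|F| ≤ T` such that at
most `|X| (1 - κ) ^ T` of the `x ∈ X` have no `s ∈ F` with `rel x s` (some `s` is related to at
least `κ |X'|` of the `x` in the uncovered set `X'`, by double counting). `(1 - κ) ^ T ≤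
exp (- κ T)`; take `T = ⌊(log |X| + 1) / κ⌋ + 1`. (`X` may be empty.) -/
def COVA_stmt : Prop :=
  ∀ (X R : Finset ℤ) (rel : ℤ → ℤ → Prop) [∀ x, DecidablePred (rel x)] (κ : ℝ), 0 < κ →
    R.Nonempty → (∀ x ∈ X, κ * R.card ≤ (R.filter (rel x)).card) →
    ∃ F : Finset ℤ, F ⊆ R ∧ (F.card : ℝ) ≤ (Real.log X.card + 1) / κ + 1 ∧
      ∀ x ∈ X, ∃ s ∈ F, rel x s

/-- DIL. Random dilation. Let `m = |D|`, and let `R` be a prime larger than `Q m ^ 2` and than twice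
the absolute values of the elements of `D`. For `0 ≤ r < R` let
`φ_r x = ⌊Q * ((r x) mod R) / R⌋ = (Q * ((r * x) % R)) / R ∈ [0, Q)` (integer division). For `d ≠ d'`
in `D`, `φ_r d = φ_r d'` implies that `r (d - d')` is congruent mod `R` to an integer of absolute
value `< R / Q`, which holds for at most `2 R / Q + 1` of the `r` (`r ↦ r (d - d')` is a bijection
mod `R`). So for some `r` at most `m ^ 2 / 2 * (2 / Q + 1 / R) ≤ m / 4 + 1 / 2 * ..` of the unordered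
pairs collide and `φ_r` takes at least `m / 2` values on `D` (number of values
`≥ m - number of colliding pairs`; for `m = 1` clear). Let `D'` be the set of these values and
`B' = {(φ_r x - e) mod Q : x ∈ B, 0 ≤ e ≤ n}`. With `u = Q ((r b) mod R) / R`,
`v = Q ((r d) mod R) / R` (real numbers), `φ_r (b + k d) ≡ ⌊u + k v⌋ (mod Q)` and
`⌊u + k v⌋ - ⌊u⌋ - k ⌊v⌋ ∈ [0, k + 1]`, and `⌊v⌋ = φ_r d`. -/
def DIL_stmt : Prop :=
  ∀ (B D : Finset ℤ) (n Q : ℕ), 1 ≤ D.card → 4 * D.card ≤ Q →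
    (∀ d ∈ D, ∃ b : ℤ, ∀ k : ℕ, k < n → b + k * d ∈ B) →
    ∃ B' D' : Finset ℤ, B'.card ≤ (n + 1) * B.card ∧ D.card ≤ 2 * D'.card ∧
      (∀ x ∈ B', 0 ≤ x ∧ x < Q) ∧ (∀ d ∈ D', 0 ≤ d ∧ d < Q) ∧
      ∀ d ∈ D', ∃ b : ℤ, ∀ k : ℕ, k < n → (b + k * d) % (Q : ℤ) ∈ B'

/-- SH2. `FW` implies `WK`. Given `ε` use `FW c` with `ε / 8`, let `δ₁ < ε / 8` be its exponent and
`δ = 2 δ₁`. Given `D`, `m = |D|` large, `B`: let `n = ⌈m ^ δ⌉`, `Q = 4 m`, `M = Q / n` (floor). Apply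
DIL. By COVA (targets `t ∈ [1, M]`, shifts `s ∈ [0, Q)`, `rel t s` iff `(t - s) % Q ∈ D'`,
`κ = |D'| / Q ≥ 1 / 8`) there is a set `F` of at most `8 (log M + 1) + 1` shifts. Let
`B'' = {(x + k s) % Q + e : x ∈ B', s ∈ F, k < n, e ∈ {0, Q}}`, so
`|B''| ≤ 2 n |F| (n + 1) |B|`. For `t ∈ [1, M]`, `t ≡ d' + s`, and the progression
`(b + k d') % Q ∈ B'` the integers `b % Q + k t`, `k < n`, are `< 2 Q` and congruent to
`(b + k d') + k s`, so they are in `B''`. Since `M ^ δ₁ ≤ (4 m) ^ δ₁ ≤ m ^ δ ≤ n`, `FW c` gives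
`M ^ (1 - c - ε / 8) ≤ |B''|`, and `M ≥ m ^ (1 - δ)` (for large `m`), `M ≤ 4 m`. The total loss is
`ε / 8 + δ + 2 δ + o(1) < ε`. -/
def SH2_stmt : Prop := ∀ c : ℝ, 0 ≤ c → c < 1 → FW c → WK c

/-- WI2. Windows. Given `α`, `ε` let `ε' = min (ε / 4) ((1 - α) / 4)`, let `δ < ε'`, `m₀` be as in
`WK c`. Let `m = |Q|`. If `Q` is empty the left side is `0` (`c < 1`). If
`1 ≤ m ≤ N ^ (ε / 4)` then one class contains at least `N / (2 X) - 1 ≥ N / (4 X)` elements,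
which is enough. Otherwise `m ≥ m₀`; let
`K = ⌈m ^ δ⌉`, `W = 2 X (K + 1)`, `J = N / W`: every window `(i W, (i + 1) W]`, `i < J`, contains
`K` consecutive terms of each class, so `WK c` (for `D = Q`, `B` = covered elements of the window)
gives `cov ≥ J m ^ (1 - c - ε')`, `J ≥ N / (12 X m ^ δ)` (note `m ≤ X ≤ N ^ α`, `6 X m ^ δ ≤ N / 2`).
See the module WIN of the first part for the same argument. -/
def WI2_stmt : Prop := ∀ c : ℝ, 0 ≤ c → c < 1 → WK c → Max c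

/-- PR2. (a) `Max c → PNear c`: take `α = (max α₀ 0 + 1) / 2`. The primes in
`[N ^ α, 2 N ^ α)` (`dyadicPrimes_ge`, see PRM) that are in `[X, 2 X)`, `X = ⌈N ^ α⌉`: all of
them. (`X ≤ N ^ α'` for some `α' ∈ (α, 1)`.)
(b) `Max 0 → SumF`: split `Q` into the dyadic blocks `2 ^ i ≤ q < 2 ^ (i + 1)`, `i ≤ log₂ N`; `Max 0` with
`ε / 2` gives `∑_{q ∈ Q_i} N / q ≤ |Q_i| N / 2 ^ i ≤ N ^ (ε / 2) cov(Q_i) ≤ N ^ (ε / 2) cov(Q)`; sum
over `i`, `log₂ N + 1 ≤ N ^ (ε / 2)`. (c) `SumF → Q1`: the primes in `[N ^ α, 2 N ^ α)` are at most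
`N ^ ((1 + α) / 2)`, and `∑ N / p ≥ |Q| N / (2 N ^ α) ≥ N ^ (1 - ε / 2) / 2`. (d) `WK c → FW c`
(`D = [1, M]`). -/
def PR2_stmt : Prop :=
  (∀ c : ℝ, 0 ≤ c → c < 1 → Max c → PNear c) ∧ (Max 0 → SumF) ∧ (SumF → Q1) ∧
    ∀ c : ℝ, WK c → FW c

end Pool.Agent.BK
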